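import Mathlib

/-!
# The free abelian topological group

`X →₀ ℤ` is the free abelian group on the set `X`.  We topologise it by the finest group topology
for which `x ↦ single x 1` is continuous.
-/

open Filter Topology

namespace Pool.Agent.Q148.FreeKR

/-- `X` is a `k_ℝ`-space: real functions which are continuous on all compact subsets are
continuous. -/
def IsKRSpace (X : Type*) [TopologicalSpace X] : Prop :=
  ∀ f : X → ℝ, (∀ K : Set X, IsCompact K → ContinuousOn f K) → Continuous f

/-- The canonical map of `X` into the free abelian group `X →₀ ℤ`. -/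
noncomputable def of {X : Type*} (x : X) : X →₀ ℤ := Finsupp.single x 1

/-- `t` is the topology of the free abelian topological group `A(X)` of a Tychonoff space `X`
(Markov): it is a group topology on the free abelian group `X →₀ ℤ` inducing the
original topology on `X`, and it is the finest such topology. -/
def IsFreeTopology (X : Type*) [TopologicalSpace X] (t : TopologicalSpace (X →₀ ℤ)) : Prop :=
  @IsTopologicalAddGroup (X →₀ ℤ) t _ ∧ @IsInducing X (X →₀ ℤ) _ t of ∧
    ∀ t' : TopologicalSpace (X →₀ ℤ), @IsTopologicalAddGroup (X →₀ ℤ) t' _ →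
      @IsInducing X (X →₀ ℤ) _ t' of → t ≤ t'

/-- The finest group topology for which `of` is continuous. -/
@[reducible] def freeTop (X : Type*) [TopologicalSpace X] : TopologicalSpace (X →₀ ℤ) :=
  sInf {t | @IsTopologicalAddGroup (X →₀ ℤ) t _ ∧ @Continuous X (X →₀ ℤ) _ t of}

/-- The free abelian topological group. -/
abbrev A (X : Type*) : Type _ := X →₀ ℤ

instance instTopA (X : Type*) [TopologicalSpace X] : TopologicalSpace (A X) := freeTop X

section general

variable {X : Type*} [TopologicalSpace X]

instance : IsTopologicalAddGroup (A X) := topologicalAddGroup_sInf (fun _ ht => ht.1)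

theorem continuous_of : Continuous (of : X → A X) :=
  continuous_sInf_rng.2 (fun _ ht => ht.2)

theorem le_of_group {t : TopologicalSpace (X →₀ ℤ)} (h1 : @IsTopologicalAddGroup (X →₀ ℤ) t _)
    (h2 : @Continuous X (X →₀ ℤ) _ t of) : freeTop X ≤ t := sInf_le ⟨h1, h2⟩

/-- The universal property. -/
theorem continuous_hom {G : Type*} [TopologicalSpace G] [AddCommGroup G]
    [IsTopologicalAddGroup G] (φ : A X →+ G) (h : Continuous (fun x => φ (of x))) :
    Continuous φ := by
  have : freeTop X ≤ TopologicalSpace.induced φ inferInstance := by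
    apply le_of_group
    · exact topologicalAddGroup_induced φ
    · exact continuous_induced_rng.2 h
  exact continuous_iff_le_induced.2 this

/-- The homomorphism into `G` extending `f`. -/
noncomputable def lift {X G : Type*} [AddCommGroup G] (f : X → G) : A X →+ G :=
  Finsupp.liftAddHom (fun x => (zmultiplesHom G (f x)))

theorem lift_apply {X G : Type*} [AddCommGroup G] (f : X → G) (g : A X) :
    lift f g = g.sum (fun x n => n • f x) := by
  unfold lift
  rw [Finsupp.liftAddHom_apply]
  simp [Finsupp.sum]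

theorem lift_of {X G : Type*} [AddCommGroup G] (f : X → G) (x : X) : lift f (of x) = f x := by
  rw [lift_apply, of, Finsupp.sum_single_index] <;> simp

theorem continuous_lift {G : Type*} [TopologicalSpace G] [AddCommGroup G]
    [IsTopologicalAddGroup G] {f : X → G} (hf : Continuous f) : Continuous (lift f) := by
  apply continuous_hom
  simpa [lift_of] using hf

/-- Signed sums of `m` positive and `n` negative generators. -/
noncomputable def ssum {X : Type*} (m n : ℕ) (p : (Fin m → X) × (Fin n → X)) : A X :=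
  ∑ i, of (p.1 i) - ∑ j, of (p.2 j)

theorem continuous_ssum (m n : ℕ) : Continuous (ssum (X := X) m n) := by
  unfold ssum
  refine Continuous.sub ?_ ?_
  · exact continuous_finsetSum _ (fun i _ =>
      continuous_of.comp ((continuous_apply i).comp continuous_fst))
  · exact continuous_finsetSum _ (fun i _ =>
      continuous_of.comp ((continuous_apply i).comp continuous_snd))

theorem exists_ssum {X : Type*} (g : A X) : ∃ m n p, g = ssum m n p := by
  induction g using Finsupp.induction_linear with
  | zero =>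
    refine ⟨0, 0, ⟨Fin.elim0, Fin.elim0⟩, ?_⟩
    simp [ssum]
  | add f g hf hg =>
    obtain ⟨m, n, p, rfl⟩ := hf
    obtain ⟨m', n', p', rfl⟩ := hg
    refine ⟨m + m', n + n', ⟨Fin.append p.1 p'.1, Fin.append p.2 p'.2⟩, ?_⟩
    unfold ssum
    rw [Fin.sum_univ_add, Fin.sum_univ_add]
    simp only [Fin.append_left, Fin.append_right]
    abel
  | single x n =>
    rcases le_total 0 n with h | h
    · lift n to ℕ using h
      refine ⟨n, 0, ⟨fun _ => x, Fin.elim0⟩, ?_⟩
      simp [ssum, of]
    · obtain ⟨k, rfl⟩ : ∃ k : ℕ, n = -(k : ℤ) := ⟨n.natAbs, by omega⟩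
      refine ⟨0, k, ⟨Fin.elim0, fun _ => x⟩, ?_⟩
      simp [ssum, of]

/-! ### Neighbourhoods of zero -/

/-- The set of all finite sums of differences `x_i - y_i` with `(x_i, y_i) ∈ W i`. -/
def USet (W : ℕ → Set (X × X)) : Set (A X) :=
  {g | ∃ p : ℕ → X × X, (∀ i, p i ∈ W i) ∧ ∃ k, (∀ i, k ≤ i → (p i).1 = (p i).2) ∧
    g = ∑ i ∈ Finset.range k, (of (p i).1 - of (p i).2)}

omit [TopologicalSpace X] in
theorem sum_ext {p : ℕ → X × X} {k l : ℕ} (hkl : k ≤ l) (hp : ∀ i, k ≤ i → (p i).1 = (p i).2) :
    ∑ i ∈ Finset.range k, (of (p i).1 - of (p i).2) =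
      ∑ i ∈ Finset.range l, (of (p i).1 - of (p i).2) := by
  apply Finset.sum_subset (Finset.range_mono hkl)
  intro i _ hi
  rw [hp i (by simpa using hi), sub_self]

omit [TopologicalSpace X] in
theorem USet_add {W W' : ℕ → Set (X × X)} (h1 : ∀ i, W' i ⊆ W (2 * i))
    (h2 : ∀ i, W' i ⊆ W (2 * i + 1)) {a b : A X} (ha : a ∈ USet W') (hb : b ∈ USet W') :
    a + b ∈ USet W := by
  obtain ⟨p, hp, k, hk, rfl⟩ := ha
  obtain ⟨q, hq, l, hl, rfl⟩ := hb
  refine ⟨fun i => if i % 2 = 0 then p (i / 2) else q (i / 2), ?_, 2 * max k l, ?_, ?_⟩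
  · intro i
    by_cases h : i % 2 = 0
    · simp only [if_pos h]
      have : i = 2 * (i / 2) := by omega
      rw [this]
      have h3 := h1 (i / 2) (hp (i / 2))
      have h4 : 2 * (i / 2) / 2 = i / 2 := by omega
      rw [h4]
      exact h3
    · simp only [if_neg h]
      have : i = 2 * (i / 2) + 1 := by omega
      have h3 := h2 (i / 2) (hq (i / 2))
      rw [← this] at h3
      exact h3
  · intro i hi
    by_cases h : i % 2 = 0
    · simp only [if_pos h]
      exact hk _ (by omega)
    · simp only [if_neg h]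
      exact hl _ (by omega)
  · rw [sum_ext (le_max_left k l) hk, sum_ext (le_max_right k l) hl]
    generalize max k l = K
    induction K with
    | zero => simp
    | succ K ih =>
      rw [Finset.sum_range_succ, Finset.sum_range_succ, show 2 * (K + 1) = 2 * K + 1 + 1 by ring,
        Finset.sum_range_succ, Finset.sum_range_succ, ← ih]
      have h1 : (2 * K) % 2 = 0 := by omega
      have h2 : ¬ (2 * K + 1) % 2 = 0 := by omega
      have h3 : 2 * K / 2 = K := by omega
      have h4 : (2 * K + 1) / 2 = K := by omega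
      simp only [if_pos h1, if_neg h2, h3, h4]
      abel

/-- The sets `USet W` form a neighbourhood base at `0` of a group topology on `A X`. -/
@[reducible] noncomputable def basis [Nonempty X] : AddGroupFilterBasis (A X) where
  sets := {S | ∃ W : ℕ → Set (X × X), (∀ i, ∀ x, W i ∈ 𝓝 (x, x)) ∧ S = USet W}
  nonempty := ⟨_, fun _ => Set.univ, fun _ _ => univ_mem, rfl⟩
  inter_sets := by
    rintro _ _ ⟨W, hW, rfl⟩ ⟨W', hW', rfl⟩
    refine ⟨_, ⟨fun i => W i ∩ W' i, fun i x => inter_mem (hW i x) (hW' i x), rfl⟩, ?_⟩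
    rintro g ⟨p, hp, k, hk, rfl⟩
    exact ⟨⟨p, fun i => (hp i).1, k, hk, rfl⟩, ⟨p, fun i => (hp i).2, k, hk, rfl⟩⟩
  zero' := by
    rintro _ ⟨W, hW, rfl⟩
    obtain ⟨x⟩ := ‹Nonempty X›
    exact ⟨fun _ => (x, x), fun i => mem_of_mem_nhds (hW i x), 0, fun _ _ => rfl, by simp⟩
  add' := by
    rintro _ ⟨W, hW, rfl⟩
    refine ⟨_, ⟨fun i => W (2 * i) ∩ W (2 * i + 1),
      fun i x => inter_mem (hW _ x) (hW _ x), rfl⟩, ?_⟩
    rintro _ ⟨a, ha, b, hb, rfl⟩
    exact USet_add (W' := fun i => W (2 * i) ∩ W (2 * i + 1)) (fun i => Set.inter_subset_left)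
      (fun i => Set.inter_subset_right) ha hb
  neg' := by
    rintro _ ⟨W, hW, rfl⟩
    refine ⟨_, ⟨fun i => Prod.swap ⁻¹' W i, fun i x => ?_, rfl⟩, ?_⟩
    · exact (continuous_swap.tendsto (x, x)) (hW i x)
    · rintro g ⟨p, hp, k, hk, rfl⟩
      refine ⟨fun i => (p i).swap, hp, k, fun i hi => (hk i hi).symm, ?_⟩
      show -(∑ i ∈ Finset.range k, (of (p i).1 - of (p i).2)) =
        ∑ i ∈ Finset.range k, (of (p i).swap.1 - of (p i).swap.2)
      rw [← Finset.sum_neg_distrib]
      apply Finset.sum_congr rfl
      intro i _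
      simp
  conj' := by
    rintro g _ ⟨W, hW, rfl⟩
    refine ⟨_, ⟨W, hW, rfl⟩, ?_⟩
    intro a ha
    simpa using ha

theorem USet_mem_nhds [Nonempty X] {W : ℕ → Set (X × X)} (hW : ∀ i, ∀ x, W i ∈ 𝓝 (x, x)) :
    USet W ∈ 𝓝 (0 : A X) := by
  have h1 : freeTop X ≤ (basis (X := X)).topology := by
    apply le_of_group (basis (X := X)).isTopologicalAddGroup
    let _ := (basis (X := X)).topology
    have := (basis (X := X)).isTopologicalAddGroup
    rw [continuous_iff_continuousAt]
    intro x
    have h2 : Tendsto (fun y : X => of y - of x) (𝓝 x) (𝓝 (0 : A X)) := by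
      rw [(basis (X := X)).nhds_zero_hasBasis.tendsto_right_iff]
      rintro _ ⟨W, hW, rfl⟩
      have h3 : Tendsto (fun y : X => (y, x)) (𝓝 x) (𝓝 (x, x)) := by
        have : Continuous (fun y : X => (y, x)) := by fun_prop
        exact this.tendsto x
      filter_upwards [h3 (hW 0 x)] with y hy
      refine ⟨fun i => if i = 0 then (y, x) else (x, x), ?_, 1, ?_, ?_⟩
      · intro i
        by_cases h : i = 0
        · subst h
          simpa using hy
        · simp only [if_neg h]
          exact mem_of_mem_nhds (hW i x)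
      · intro i hi
        have : i ≠ 0 := by omega
        simp [this]
      · simp
    have h4 := h2.add_const (of x)
    rw [ContinuousAt]
    simpa using h4
  have h5 : USet W ∈ @nhds (A X) (basis (X := X)).topology 0 :=
    (basis (X := X)).mem_nhds_zero ⟨W, hW, rfl⟩
  exact nhds_mono h1 h5

/-- A criterion for the continuity of a real function on `A X`. -/
theorem continuous_of_local [Nonempty X] (f : A X → ℝ)
    (h : ∀ (g : A X) (k : ℕ) (ε : ℝ), 0 < ε → ∀ x : X, ∀ᶠ q : X × X in 𝓝 (x, x),
      ∀ z : Fin k → X × X,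
        |f (g + ∑ i, (of (z i).1 - of (z i).2) + (of q.1 - of q.2)) -
          f (g + ∑ i, (of (z i).1 - of (z i).2))| < ε) : Continuous f := by
  rw [continuous_iff_continuousAt]
  intro g
  rw [Metric.continuousAt_iff']
  intro ε hε
  let W : ℕ → Set (X × X) := fun k => {q | ∀ z : Fin k → X × X,
        |f (g + ∑ i, (of (z i).1 - of (z i).2) + (of q.1 - of q.2)) -
          f (g + ∑ i, (of (z i).1 - of (z i).2))| < ε / 2 / 2 ^ (k + 1)}
  have hW : ∀ i, ∀ x, W i ∈ 𝓝 (x, x) := fun i x => h g i _ (by positivity) x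
  have hU : ∀ u ∈ USet W, |f (g + u) - f g| < ε := by
    rintro _ ⟨p, hp, k, -, rfl⟩
    have hk : ∀ k, |f (g + ∑ i ∈ Finset.range k, (of (p i).1 - of (p i).2)) - f g| ≤
        ε / 2 * (1 - 1 / 2 ^ k) := by
      intro k
      induction k with
      | zero => simp
      | succ k ih =>
        have h1 := hp k (fun i => p i)
        rw [Fin.sum_univ_eq_sum_range (fun i => of (p i).1 - of (p i).2) k] at h1
        rw [Finset.sum_range_succ, ← add_assoc]
        have h2 : |f (g + ∑ i ∈ Finset.range k, (of (p i).1 - of (p i).2) +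
            (of (p k).1 - of (p k).2)) - f g| ≤
            |f (g + ∑ i ∈ Finset.range k, (of (p i).1 - of (p i).2) +
            (of (p k).1 - of (p k).2)) - f (g + ∑ i ∈ Finset.range k, (of (p i).1 - of (p i).2))| +
            |f (g + ∑ i ∈ Finset.range k, (of (p i).1 - of (p i).2)) - f g| := abs_sub_le _ _ _
        have h3 : ε / 2 * (1 - 1 / 2 ^ (k + 1)) = ε / 2 / 2 ^ (k + 1) +
            ε / 2 * (1 - 1 / 2 ^ k) := by
          field_simp
          ring
        rw [h3]
        exact h2.trans (add_le_add h1.le ih)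
    refine (hk k).trans_lt ?_
    have : ε / 2 * (1 - 1 / 2 ^ k) ≤ ε / 2 := by
      have : (0 : ℝ) ≤ 1 / 2 ^ k := by positivity
      nlinarith
    linarith
  have h1 : Tendsto (fun a : A X => a - g) (𝓝 g) (𝓝 0) := by
    have : Continuous (fun a : A X => a - g) := by fun_prop
    simpa using this.tendsto g
  filter_upwards [h1 (USet_mem_nhds hW)] with a ha
  have := hU _ ha
  rw [Real.dist_eq]
  simpa using this

/-- If `f` is continuous on compact sets and factors through a retraction-like map `r` with
values in a compact set, then `f` is continuous. -/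
theorem continuous_of_factor [Nonempty X] (f : A X → ℝ)
    (hf : ∀ K : Set (A X), IsCompact K → ContinuousOn f K) (r : X → X) (hr : Continuous r)
    (K : Set X) (hK : IsCompact K) (hrK : ∀ x, r x ∈ K)
    (hfr : ∀ g, f g = f (lift (fun x => of (r x)) g)) : Continuous f := by
  apply continuous_of_local
  intro g k ε hε x
  have hKc : CompactSpace K := isCompact_iff_compactSpace.1 hK
  -- the auxiliary function on a compact space
  let s : (K × K) × (Fin k → K × K) → A X := fun q =>
    lift (fun x => of (r x)) g + ∑ i, (of ((q.2 i).1 : X) - of ((q.2 i).2 : X)) +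
      (of (q.1.1 : X) - of (q.1.2 : X))
  let s' : (K × K) × (Fin k → K × K) → A X := fun q =>
    lift (fun x => of (r x)) g + ∑ i, (of ((q.2 i).1 : X) - of ((q.2 i).2 : X))
  have hc : Continuous (fun x : K => of (x : X)) := continuous_of.comp continuous_subtype_val
  have hs' : Continuous s' := by
    refine continuous_const.add (continuous_finsetSum _ (fun i _ => Continuous.sub ?_ ?_))
    · exact hc.comp (continuous_fst.comp ((continuous_apply i).comp continuous_snd))
    · exact hc.comp (continuous_snd.comp ((continuous_apply i).comp continuous_snd))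
  have hs : Continuous s := by
    refine hs'.add (Continuous.sub ?_ ?_)
    · exact hc.comp (continuous_fst.comp continuous_fst)
    · exact hc.comp (continuous_snd.comp continuous_fst)
  have hcomp : ∀ {Y : Type _} [TopologicalSpace Y] [CompactSpace Y] (σ : Y → A X),
      Continuous σ → Continuous (fun y => f (σ y)) := by
    intro Y _ _ σ hσ
    have h1 := hf (Set.range σ) (isCompact_range hσ)
    exact h1.comp_continuous hσ (fun y => ⟨y, rfl⟩)
  have hΦ : Continuous (fun q : (K × K) × (Fin k → K × K) => |f (s q) - f (s' q)|) :=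
    ((hcomp s hs).sub (hcomp s' hs')).abs
  -- pull back along `r`
  let ρ : X → K := fun x => ⟨r x, hrK x⟩
  have hρ : Continuous ρ := hr.subtype_mk _
  have hΨ : Continuous (fun q : (X × X) × (Fin k → K × K) =>
      |f (s ((ρ q.1.1, ρ q.1.2), q.2)) - f (s' ((ρ q.1.1, ρ q.1.2), q.2))|) := by
    refine hΦ.comp (Continuous.prodMk (Continuous.prodMk ?_ ?_) continuous_snd)
    · exact hρ.comp (continuous_fst.comp continuous_fst)
    · exact hρ.comp (continuous_snd.comp continuous_fst)
  have hev : ∀ᶠ q : X × X in 𝓝 (x, x), ∀ z ∈ (Set.univ : Set (Fin k → K × K)),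
      |f (s ((ρ q.1, ρ q.2), z)) - f (s' ((ρ q.1, ρ q.2), z))| < ε := by
    apply IsCompact.eventually_forall_of_forall_eventually isCompact_univ
    intro z _
    have h0 : |f (s ((ρ x, ρ x), z)) - f (s' ((ρ x, ρ x), z))| < ε := by
      have : s ((ρ x, ρ x), z) = s' ((ρ x, ρ x), z) := by simp [s, s']
      rw [this]
      simpa using hε
    have := hΨ.tendsto ((x, x), z) (Iio_mem_nhds h0)
    exact this
  filter_upwards [hev] with q hq z
  have h1 := hq (fun i => (ρ (z i).1, ρ (z i).2)) trivial
  rw [hfr (g + ∑ i, (of (z i).1 - of (z i).2) + (of q.1 - of q.2)),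
    hfr (g + ∑ i, (of (z i).1 - of (z i).2))]
  have h2 : lift (fun x => of (r x)) (g + ∑ i, (of (z i).1 - of (z i).2)) =
      s' ((ρ q.1, ρ q.2), fun i => (ρ (z i).1, ρ (z i).2)) := by
    simp only [map_add, map_sum, map_sub, lift_of, s', ρ]
  have h3 : lift (fun x => of (r x)) (g + ∑ i, (of (z i).1 - of (z i).2) + (of q.1 - of q.2)) =
      s ((ρ q.1, ρ q.2), fun i => (ρ (z i).1, ρ (z i).2)) := by
    simp only [map_add, map_sum, map_sub, lift_of, s, ρ]
  rw [h2, h3]
  exact h1

/-! ### The free topology -/

theorem isInducing_of [CompletelyRegularSpace X] : IsInducing (of : X → A X) := by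
  rw [isInducing_iff_nhds]
  intro x
  apply le_antisymm
  · exact (continuous_of.tendsto x).le_comap
  · intro U hU
    obtain ⟨V, hVU, hVo, hxV⟩ := mem_nhds_iff.1 hU
    obtain ⟨φ, hφ, hφx, hφV⟩ := CompletelyRegularSpace.completely_regular x Vᶜ hVo.isClosed_compl
      (by simpa using hxV)
    rw [mem_comap]
    have hc : Continuous (fun y => (φ y : ℝ)) := continuous_subtype_val.comp hφ
    refine ⟨{g | lift (fun y => (φ y : ℝ)) g < 1}, ?_, ?_⟩
    · apply (isOpen_Iio.preimage (continuous_lift hc)).mem_nhds
      show lift (fun y => (φ y : ℝ)) (of x) < 1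
      rw [lift_of, hφx]
      norm_num
    · intro y hy
      apply hVU
      by_contra hyV
      have h1 : lift (fun y => (φ y : ℝ)) (of y) < 1 := hy
      rw [lift_of, hφV hyV] at h1
      norm_num at h1

theorem isFreeTopology [CompletelyRegularSpace X] : IsFreeTopology X (freeTop X) := by
  refine ⟨inferInstanceAs (IsTopologicalAddGroup (A X)), isInducing_of, ?_⟩
  intro t' h1 h2
  exact le_of_group h1 (@IsInducing.continuous X (X →₀ ℤ) of t' _ h2)

theorem t2_A [T35Space X] : T2Space (A X) := by
  apply IsTopologicalAddGroup.t2Space_of_zero_sep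
  intro g hg
  obtain ⟨x, hx⟩ : ∃ x, g x ≠ 0 := by
    by_contra hcon
    push Not at hcon
    exact hg (Finsupp.ext hcon)
  classical
  obtain ⟨φ, hφ, hφx, hφV⟩ := CompletelyRegularSpace.completely_regular x
    ((g.support.erase x : Finset X) : Set X) (Finset.finite_toSet _).isClosed (by simp)
  have hc : Continuous (fun y => 1 - (φ y : ℝ)) :=
    continuous_const.sub (continuous_subtype_val.comp hφ)
  refine ⟨{a | lift (fun y => 1 - (φ y : ℝ)) a ≠ (g x : ℝ)}, ?_, ?_⟩
  · apply (isOpen_ne.preimage (continuous_lift hc)).mem_nhds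
    show lift (fun y => 1 - (φ y : ℝ)) 0 ≠ (g x : ℝ)
    rw [map_zero]
    exact_mod_cast hx.symm
  · intro h
    apply h
    rw [lift_apply, Finsupp.sum, Finset.sum_eq_single x]
    · rw [hφx]
      simp
    · intro y hy hyx
      have : φ y = 1 := hφV (by simp [hyx]; simpa using hy)
      rw [this]
      simp
    · intro h
      simp at h
      rw [h]
      simp

end general

end Pool.Agent.Q148.FreeKR
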