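import Pool.Agent.Q148.FreeKR.Free
import Pool.Agent.Q148.Ladder

/-!
# The space `X`

`L = [0, ω₁]`, and `X` is the subspace of `L × βℕ` consisting of the points `(a, p)` with
`a < ω₁` or `p ∈ ℕ`.
-/

open Filter Topology

namespace Pool.Agent.Q148.FreeKR

/-- The index set `ω₁`. -/
abbrev W1 : Type := (Cardinal.aleph 1).ord.ToType

theorem regIdx_W1 : Pool.Agent.Q148.Ladder.RegIdx W1 where
  reg := by
    rw [Cardinal.mk_toType, Cardinal.card_ord]
    exact Cardinal.isRegular_aleph_one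
  unc := by
    rw [Cardinal.mk_toType, Cardinal.card_ord]
    exact Cardinal.aleph0_lt_aleph_one
  init i := by
    rw [Cardinal.mk_toType (Cardinal.aleph 1).ord, Cardinal.card_ord]
    exact Cardinal.mk_Iio_toType_ord_lt i

theorem W1_bd (s : Set W1) (hs : s.Countable) : ∃ b, ∀ i ∈ s, i < b :=
  Pool.Agent.Q148.Ladder.exists_bd_of_countable regIdx_W1 s hs

instance : Nonempty W1 := Pool.Agent.Q148.Ladder.nonempty_idx regIdx_W1

noncomputable instance : OrderBot W1 := WellFoundedLT.toOrderBot _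

noncomputable instance : ConditionallyCompleteLinearOrderBot W1 :=
  WellFoundedLT.conditionallyCompleteLinearOrderBot _

/-- `L = [0, ω₁]`. -/
def L : Type := WithTop W1

noncomputable instance : CompleteLinearOrder L :=
  inferInstanceAs (CompleteLinearOrder (WithTop W1))

noncomputable instance : TopologicalSpace L := Preorder.topology L

instance : OrderTopology L := ⟨rfl⟩

instance : WellFoundedLT L := inferInstanceAs (WellFoundedLT (WithTop W1))

theorem L_bd (s : ℕ → L) (hs : ∀ n, s n < ⊤) : ∃ b, b < ⊤ ∧ ∀ n, s n < b := by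
  have h1 : ∀ n, ∃ w : W1, ((w : WithTop W1) : L) = s n := fun n =>
    WithTop.ne_top_iff_exists.1 (hs n).ne
  choose w hw using h1
  obtain ⟨b, hb⟩ := W1_bd (Set.range w) (Set.countable_range w)
  refine ⟨((b : WithTop W1) : L), WithTop.coe_lt_top b, ?_⟩
  intro n
  rw [← hw n]
  exact WithTop.coe_lt_coe.2 (hb _ ⟨n, rfl⟩)

theorem L_gt (a : L) (ha : a < ⊤) : ∃ b, a < b ∧ b < ⊤ := by
  obtain ⟨b, hb, hb'⟩ := L_bd (fun _ => a) (fun _ => ha)
  exact ⟨b, hb' 0, hb⟩

theorem L_bot_lt : (⊥ : L) < ⊤ := by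
  obtain ⟨w⟩ : Nonempty W1 := inferInstance
  exact lt_of_le_of_lt bot_le (WithTop.coe_lt_top w)

theorem L_open (a : L) (ha : a < ⊤) : IsOpen (Set.Iic a) := by
  have hne : (Set.Ioi a).Nonempty := ⟨⊤, ha⟩
  have h1 : a < sInf (Set.Ioi a) := csInf_mem hne
  have h2 : Set.Iic a = Set.Iio (sInf (Set.Ioi a)) := by
    ext x
    constructor
    · intro hx
      exact lt_of_le_of_lt hx h1
    · intro hx
      by_contra hcon
      have h3 : a < x := not_le.1 hcon
      have h4 : x ∈ Set.Ioi a := h3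
      exact absurd (sInf_le h4) (not_le.2 hx)
  rw [h2]
  exact isOpen_Iio

theorem L_top_mem (a : L) (ha : a < ⊤) : (⊤ : L) ∈ closure (Set.Ico a ⊤) := by
  rw [mem_closure_iff_nhds]
  intro U hU
  obtain ⟨b, hb, hbU⟩ := exists_Ioc_subset_of_mem_nhds hU ⟨⊥, L_bot_lt⟩
  obtain ⟨c, hc1, hc2⟩ := L_gt (max a b) (max_lt ha hb)
  exact ⟨c, hbU ⟨(le_max_right a b).trans_lt hc1, hc2.le⟩, ((le_max_left a b).trans_lt hc1).le,
    hc2⟩

/-- The space `X`. -/
abbrev X : Type := {x : L × Ultrafilter ℕ // x.1 < ⊤ ∨ ∃ n, x.2 = pure n}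

noncomputable example : T35Space X := inferInstance

instance : Nonempty X := ⟨⟨(⊥, pure 0), Or.inl L_bot_lt⟩⟩

/-- Truncation. -/
noncomputable def tr (β : L) (x : X) : X :=
  ⟨(min x.1.1 β, x.1.2), by
    rcases x.2 with h | h
    · exact Or.inl (lt_of_le_of_lt (min_le_left _ _) h)
    · exact Or.inr h⟩

theorem continuous_tr : Continuous (fun q : L × X => tr q.1 q.2) := by
  apply Continuous.subtype_mk
  refine Continuous.prodMk ?_ ?_
  · exact (continuous_fst.comp (continuous_subtype_val.comp continuous_snd)).min continuous_fst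
  · exact continuous_snd.comp (continuous_subtype_val.comp continuous_snd)

theorem tr_tr (α β : L) (h : α ≤ β) (x : X) : tr α (tr β x) = tr α x := by
  apply Subtype.ext
  refine Prod.ext ?_ rfl
  show min (min x.1.1 β) α = min x.1.1 α
  rw [min_assoc, min_eq_right h]

theorem tr_eq (β : L) (x : X) (h : x.1.1 ≤ β) : tr β x = x := by
  apply Subtype.ext
  refine Prod.ext ?_ rfl
  show min x.1.1 β = x.1.1
  exact min_eq_left h

theorem tr_fst_le (β : L) (x : X) : (tr β x).1.1 ≤ β := min_le_right _ _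

theorem isCompact_le (γ : L) (hγ : γ < ⊤) : IsCompact {x : X | x.1.1 ≤ γ} := by
  rw [Subtype.isCompact_iff]
  have : Subtype.val '' {x : X | x.1.1 ≤ γ} = {x : L × Ultrafilter ℕ | x.1 ≤ γ} := by
    ext x
    constructor
    · rintro ⟨y, hy, rfl⟩
      exact hy
    · intro hx
      exact ⟨⟨x, Or.inl (lt_of_le_of_lt hx hγ)⟩, hx, rfl⟩
  rw [this]
  exact (isClosed_Iic.preimage continuous_fst).isCompact

/-- Truncation of tuples. -/
noncomputable def trt {m n : ℕ} (β : L) (p : (Fin m → X) × (Fin n → X)) :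
    (Fin m → X) × (Fin n → X) := (fun i => tr β (p.1 i), fun i => tr β (p.2 i))

theorem continuous_trt {m n : ℕ} :
    Continuous (fun q : L × ((Fin m → X) × (Fin n → X)) => trt q.1 q.2) := by
  refine Continuous.prodMk ?_ ?_
  · refine continuous_pi (fun i => ?_)
    exact continuous_tr.comp (continuous_fst.prodMk
      ((continuous_apply i).comp (continuous_fst.comp continuous_snd)))
  · refine continuous_pi (fun i => ?_)
    exact continuous_tr.comp (continuous_fst.prodMk
      ((continuous_apply i).comp (continuous_snd.comp continuous_snd)))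

/-- All coordinates are at most `γ`. -/
def Bd {m n : ℕ} (γ : L) (p : (Fin m → X) × (Fin n → X)) : Prop :=
  (∀ i, (p.1 i).1.1 ≤ γ) ∧ (∀ i, (p.2 i).1.1 ≤ γ)

theorem trt_eq {m n : ℕ} (γ : L) (p : (Fin m → X) × (Fin n → X)) (h : Bd γ p) :
    trt γ p = p := by
  refine Prod.ext ?_ ?_
  · funext i
    exact tr_eq _ _ (h.1 i)
  · funext i
    exact tr_eq _ _ (h.2 i)

theorem bd_trt {m n : ℕ} (γ : L) (p : (Fin m → X) × (Fin n → X)) : Bd γ (trt γ p) :=
  ⟨fun _ => tr_fst_le _ _, fun _ => tr_fst_le _ _⟩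

theorem trt_trt {m n : ℕ} (α β : L) (h : α ≤ β) (p : (Fin m → X) × (Fin n → X)) :
    trt α (trt β p) = trt α p := by
  refine Prod.ext ?_ ?_
  · funext i
    exact tr_tr _ _ h _
  · funext i
    exact tr_tr _ _ h _

theorem isCompact_bd {m n : ℕ} (γ : L) (hγ : γ < ⊤) :
    IsCompact {p : (Fin m → X) × (Fin n → X) | Bd γ p} := by
  have h1 : IsCompact (Set.pi Set.univ (fun _ : Fin m => {x : X | x.1.1 ≤ γ})) :=
    isCompact_univ_pi (fun _ => isCompact_le γ hγ)
  have h2 : IsCompact (Set.pi Set.univ (fun _ : Fin n => {x : X | x.1.1 ≤ γ})) :=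
    isCompact_univ_pi (fun _ => isCompact_le γ hγ)
  have h3 := h1.prod h2
  convert h3 using 1
  ext p
  simp [Bd, Set.mem_pi]

/-- `f` depends only on truncations, for one pattern. -/
theorem factor_pattern (f : A X → ℝ) (hf : ∀ K : Set (A X), IsCompact K → ContinuousOn f K)
    (m n : ℕ) : ∃ α, α < ⊤ ∧ ∀ p : (Fin m → X) × (Fin n → X),
      (∃ γ, γ < ⊤ ∧ Bd γ p) → f (ssum m n p) = f (ssum m n (trt α p)) := by
  by_contra hcon
  push Not at hcon
  -- uniform gap
  have hgap : ∃ N : ℕ, ∀ α, α < ⊤ → ∃ β p, α ≤ β ∧ β < ⊤ ∧ (∃ γ, γ < ⊤ ∧ Bd γ p) ∧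
      1 / ((N : ℝ) + 1) < |f (ssum m n p) - f (ssum m n (trt β p))| := by
    by_contra hno
    push Not at hno
    choose a ha hno using hno
    obtain ⟨b, hb, hab⟩ := L_bd a ha
    obtain ⟨p, hp, hne⟩ := hcon b hb
    have hpos : 0 < |f (ssum m n p) - f (ssum m n (trt b p))| :=
      abs_pos.2 (sub_ne_zero.2 hne)
    obtain ⟨N, hN⟩ := exists_nat_one_div_lt hpos
    exact absurd (hno N b p (hab N).le hb hp) (not_le.2 hN)
  obtain ⟨N, hN⟩ := hgap
  have hN' : ∀ α : {α : L // α < ⊤}, ∃ (c : {α : L // α < ⊤}) (β : L)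
      (p : (Fin m → X) × (Fin n → X)), α.1 ≤ β ∧ β ≤ c.1 ∧ Bd c.1 p ∧
      1 / ((N : ℝ) + 1) < |f (ssum m n p) - f (ssum m n (trt β p))| := by
    rintro ⟨α, hα⟩
    obtain ⟨β, p, h1, h2, ⟨γ, h3, h4⟩, h5⟩ := hN α hα
    refine ⟨⟨max β γ, max_lt h2 h3⟩, β, p, h1, le_max_left _ _, ?_, h5⟩
    exact ⟨fun i => (h4.1 i).trans (le_max_right _ _), fun i => (h4.2 i).trans (le_max_right _ _)⟩
  choose c β p h1 h2 h3 h5 using hN'
  let a : ℕ → {α : L // α < ⊤} := fun k => c^[k] ⟨⊥, L_bot_lt⟩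
  have hsucc : ∀ k, a (k + 1) = c (a k) := fun k => Function.iterate_succ_apply' _ _ _
  have hmono : Monotone (fun k => (a k).1) := by
    apply monotone_nat_of_le_succ
    intro k
    rw [hsucc]
    exact (h1 (a k)).trans (h2 (a k))
  let γ : L := ⨆ k, (a k).1
  have hγ : γ < ⊤ := by
    obtain ⟨b, hb, hb'⟩ := L_bd (fun k => (a k).1) (fun k => (a k).2)
    exact lt_of_le_of_lt (iSup_le fun k => (hb' k).le) hb
  have hlim : Tendsto (fun k => (a k).1) atTop (𝓝 γ) := tendsto_atTop_iSup hmono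
  have hlim' : Tendsto (fun k => (a (k + 1)).1) atTop (𝓝 γ) :=
    hlim.comp (tendsto_add_atTop_nat 1)
  have hβlim : Tendsto (fun k => β (a k)) atTop (𝓝 γ) := by
    refine tendsto_of_tendsto_of_tendsto_of_le_of_le hlim hlim' ?_ ?_
    · intro k
      exact h1 (a k)
    · intro k
      show β (a k) ≤ (a (k + 1)).1
      rw [hsucc]
      exact h2 (a k)
  have hβle : ∀ k, β (a k) ≤ γ := by
    intro k
    refine (h2 (a k)).trans ?_
    rw [← hsucc]
    exact le_iSup (fun k => (a k).1) (k + 1)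
  have hbd : ∀ k, Bd γ (p (a k)) := by
    intro k
    have h6 : (c (a k)).1 ≤ γ := by
      rw [← hsucc]
      exact le_iSup (fun k => (a k).1) (k + 1)
    exact ⟨fun i => ((h3 (a k)).1 i).trans h6, fun i => ((h3 (a k)).2 i).trans h6⟩
  -- limit along an ultrafilter
  have hC := isCompact_bd (m := m) (n := n) γ hγ
  obtain ⟨𝒰, h𝒰⟩ := Ultrafilter.exists_le (atTop : Filter ℕ)
  obtain ⟨z, hz, hzlim⟩ := isCompact_iff_ultrafilter_le_nhds.1 hC (𝒰.map (fun k => p (a k)))
    (by
      rw [le_principal_iff, Ultrafilter.mem_coe, Ultrafilter.mem_map]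
      have : (fun k => p (a k)) ⁻¹' {p : (Fin m → X) × (Fin n → X) | Bd γ p} = Set.univ := by
        ext k
        simp only [Set.mem_preimage, Set.mem_ofPred_eq, Set.mem_univ, iff_true]
        exact hbd k
      rw [this]
      exact Filter.univ_mem)
  have hz1 : Tendsto (fun k => p (a k)) 𝒰 (𝓝 z) := hzlim
  have hβ1 : Tendsto (fun k => β (a k)) 𝒰 (𝓝 γ) := hβlim.mono_left h𝒰
  have hz2 : Tendsto (fun k => trt (β (a k)) (p (a k))) 𝒰 (𝓝 z) := by
    have h6 := (continuous_trt (m := m) (n := n)).tendsto (γ, z)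
    have h7 := h6.comp (hβ1.prodMk_nhds hz1)
    rw [show trt (γ, z).1 (γ, z).2 = z from trt_eq γ z hz] at h7
    exact h7
  -- continuity of `f ∘ ssum` on the compact set
  have hcont : ContinuousOn (fun q => f (ssum m n q)) {p : (Fin m → X) × (Fin n → X) | Bd γ p} := by
    have h8 := hf (ssum m n '' {p : (Fin m → X) × (Fin n → X) | Bd γ p})
      (hC.image (continuous_ssum m n))
    exact h8.comp (continuous_ssum m n).continuousOn (Set.mapsTo_image _ _)
  have hcz := hcont z hz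
  have hA1 : Tendsto (fun k => f (ssum m n (p (a k)))) 𝒰 (𝓝 (f (ssum m n z))) := by
    apply hcz.tendsto.comp
    rw [tendsto_nhdsWithin_iff]
    exact ⟨hz1, Filter.Eventually.of_forall hbd⟩
  have hA2 : Tendsto (fun k => f (ssum m n (trt (β (a k)) (p (a k))))) 𝒰
      (𝓝 (f (ssum m n z))) := by
    apply hcz.tendsto.comp
    rw [tendsto_nhdsWithin_iff]
    refine ⟨hz2, Filter.Eventually.of_forall (fun k => ?_)⟩
    have h9 := bd_trt (β (a k)) (p (a k))
    exact ⟨fun i => (h9.1 i).trans (hβle k), fun i => (h9.2 i).trans (hβle k)⟩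
  have hA3 := (hA1.sub hA2).abs
  rw [sub_self, abs_zero] at hA3
  have hpos : (0 : ℝ) < 1 / ((N : ℝ) + 1) := by positivity
  have hev : ∀ᶠ k in (𝒰 : Filter ℕ), |f (ssum m n (p (a k))) -
      f (ssum m n (trt (β (a k)) (p (a k))))| < 1 / ((N : ℝ) + 1) := hA3 (Iio_mem_nhds hpos)
  obtain ⟨k, hk⟩ := hev.exists
  exact absurd (h5 (a k)) (not_lt.2 (le_of_lt hk))

/-- `f` factors through a truncation. -/
theorem factor (f : A X → ℝ) (hf : ∀ K : Set (A X), IsCompact K → ContinuousOn f K) :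
    ∃ α, α < ⊤ ∧ ∀ g, f g = f (lift (fun x => of (tr α x)) g) := by
  have h1 := fun m n => factor_pattern f hf m n
  choose α hα hfα using h1
  obtain ⟨b, hb, hbα⟩ := L_bd (fun k => α k.unpair.1 k.unpair.2) (fun k => hα _ _)
  refine ⟨b, hb, ?_⟩
  intro g
  obtain ⟨m, n, p, rfl⟩ := exists_ssum g
  have hαb : α m n ≤ b := by
    have := (hbα (Nat.pair m n)).le
    simpa using this
  have hmap : lift (fun x => of (tr b x)) (ssum m n p) = ssum m n (trt b p) := by
    unfold ssum
    simp only [map_sub, map_sum, lift_of]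
    rfl
  rw [hmap]
  -- statement for bounded tuples
  have hbd : ∀ q : (Fin m → X) × (Fin n → X), (∃ γ, γ < ⊤ ∧ Bd γ q) →
      f (ssum m n q) = f (ssum m n (trt b q)) := by
    intro q hq
    rw [hfα m n q hq, hfα m n (trt b q) ⟨b, hb, bd_trt b q⟩, trt_trt _ _ hαb]
  -- the path
  have hpath : Continuous (fun a : L => ssum m n (trt a p)) :=
    (continuous_ssum m n).comp (continuous_trt.comp (continuous_id.prodMk continuous_const))
  have hfc : Continuous (fun a : L => f (ssum m n (trt a p))) := by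
    have h2 := hf (Set.range (fun a : L => ssum m n (trt a p))) (isCompact_range hpath)
    exact h2.comp_continuous hpath (fun a => ⟨a, rfl⟩)
  have hcl : IsClosed {a : L | f (ssum m n (trt a p)) = f (ssum m n (trt b p))} :=
    isClosed_eq hfc continuous_const
  have hsub : Set.Ico b ⊤ ⊆ {a : L | f (ssum m n (trt a p)) = f (ssum m n (trt b p))} := by
    intro a ha
    show f (ssum m n (trt a p)) = f (ssum m n (trt b p))
    rw [hbd (trt a p) ⟨a, ha.2, bd_trt a p⟩, trt_trt _ _ ha.1]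
  have htop := closure_minimal hsub hcl (L_top_mem b hb)
  have h3 : f (ssum m n (trt ⊤ p)) = f (ssum m n (trt b p)) := htop
  rw [trt_eq ⊤ p ⟨fun _ => le_top, fun _ => le_top⟩] at h3
  exact h3

/-- `A(X)` is a `k_ℝ`-space. -/
theorem isKR : IsKRSpace (A X) := by
  intro f hf
  obtain ⟨α, hα, hfα⟩ := factor f hf
  refine continuous_of_factor f hf (tr α) ?_ {x : X | x.1.1 ≤ α} (isCompact_le α hα)
    (fun x => tr_fst_le α x) hfα
  exact continuous_tr.comp (continuous_const.prodMk continuous_id)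

end Pool.Agent.Q148.FreeKR
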